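import Pool.Agent.H99.ADJ.Base

/-! # Project ADJ, module POL: points are polar for planar Brownian motion -/

set_option autoImplicit false

open MeasureTheory ProbabilityTheory Set Filter Topology
open scoped NNReal ENNReal NNRat

namespace Pool.ADJ

namespace POL

theorem g_up {v : ℝ≥0} (hv : v ≠ 0) (z r : ℝ) :
    gaussianReal 0 v (Icc (z - r) (z + r)) ≤ ENNReal.ofReal (2 * r / √(2 * Real.pi * v)) := by
  rw [gaussianReal_apply 0 hv]
  calc ∫⁻ x in Icc (z - r) (z + r), gaussianPDF 0 v x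
      ≤ ∫⁻ x in Icc (z - r) (z + r), ENNReal.ofReal ((√(2 * Real.pi * v))⁻¹) := by
        refine lintegral_mono fun x => ?_
        unfold gaussianPDF gaussianPDFReal
        refine ENNReal.ofReal_le_ofReal ?_
        refine mul_le_of_le_one_right (by positivity) (Real.exp_le_one_iff.2 ?_)
        have : 0 ≤ (x - 0) ^ 2 / (2 * (v : ℝ)) := by positivity
        rw [neg_div]
        linarith
    _ = ENNReal.ofReal (2 * r / √(2 * Real.pi * v)) := by
        rw [setLIntegral_const, Real.volume_Icc, ← ENNReal.ofReal_mul (by positivity)]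
        congr 1
        rw [div_eq_inv_mul]
        ring

theorem g_low {v : ℝ≥0} (hv : v ≠ 0) (r : ℝ) (hrv : r ^ 2 ≤ v) :
    ENNReal.ofReal (2 * r / √(2 * Real.pi * v) * Real.exp (-(1 / 2))) ≤
      gaussianReal 0 v (Icc (0 - r) (0 + r)) := by
  rw [gaussianReal_apply 0 hv]
  have hv0 : (0 : ℝ) < v := by
    have := pos_iff_ne_zero.2 hv
    exact_mod_cast this
  calc ENNReal.ofReal (2 * r / √(2 * Real.pi * v) * Real.exp (-(1 / 2)))
      = ∫⁻ x in Icc (0 - r) (0 + r),
          ENNReal.ofReal ((√(2 * Real.pi * v))⁻¹ * Real.exp (-(1 / 2))) := by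
        rw [setLIntegral_const, Real.volume_Icc, ← ENNReal.ofReal_mul (by positivity)]
        congr 1
        rw [div_eq_inv_mul]
        ring
    _ ≤ ∫⁻ x in Icc (0 - r) (0 + r), gaussianPDF 0 v x := by
        refine setLIntegral_mono' measurableSet_Icc fun x hx => ?_
        unfold gaussianPDF gaussianPDFReal
        refine ENNReal.ofReal_le_ofReal ?_
        refine mul_le_mul_of_nonneg_left (Real.exp_le_exp.2 ?_) (by positivity)
        have h1 : x ^ 2 ≤ v := by
          refine le_trans ?_ hrv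
          apply sq_le_sq'
          · linarith [hx.1]
          · linarith [hx.2]
        rw [neg_div, neg_le_neg_iff, div_le_div_iff₀ (by positivity) (by norm_num)]
        nlinarith

section

variable {Ω : Type} [MeasurableSpace Ω] {μ : Measure Ω} {B : ℝ → Ω → Pl}

theorem law (hB : PB μ B) {t : ℝ} (ht : 0 < t) (i : Fin 2) :
    μ.map (fun ω => B t ω i) = gaussianReal 0 t.toNNReal := by
  have hp := hB.gp.isProbabilityMeasure
  have e0 : ((t.toNNReal : ℝ≥0) : ℝ) = t := Real.coe_toNNReal t ht.le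
  have h1 := (hB.gp.hasGaussianLaw_eval (t.toNNReal, i)).map_eq_gaussianReal
  have h2 := hB.mean (t.toNNReal, i)
  have h3 := hB.cov (t.toNNReal, i) (t.toNNReal, i)
  have h4 : AEMeasurable (fun ω => B t ω i) μ :=
    ((measurable_pi_apply i).comp (hB.meas t ht.le)).aemeasurable
  simp only [e0, min_self, if_true] at h1 h2 h3
  rw [covariance_self h4] at h3
  rw [h1, h2, h3]

theorem prod (hB : PB μ B) {t : ℝ} (ht : 0 < t) (z : Pl) {r : ℝ} (hr : 0 ≤ r) :
    μ {ω | ‖B t ω - z‖ ≤ r} = gaussianReal 0 t.toNNReal (Icc (z 0 - r) (z 0 + r)) *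
      gaussianReal 0 t.toNNReal (Icc (z 1 - r) (z 1 + r)) := by
  have hp := hB.gp.isProbabilityMeasure
  have hm : ∀ i, Measurable (fun ω => B t ω i) := fun i =>
    (measurable_pi_apply i).comp (hB.meas t ht.le)
  have hi : IndepFun (fun ω => B t ω 0) (fun ω => B t ω 1) μ := by
    have e0 : ((t.toNNReal : ℝ≥0) : ℝ) = t := Real.coe_toNNReal t ht.le
    have h1 := hB.gp.hasGaussianLaw_prodMk (s := (t.toNNReal, 0)) (t := (t.toNNReal, 1))
    have h3 := hB.cov (t.toNNReal, 0) (t.toNNReal, 1)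
    rw [if_neg (by simp)] at h3
    simp only [e0] at h1 h3
    exact HasGaussianLaw.indepFun_of_covariance_eq_zero h1 h3
  have e : {ω | ‖B t ω - z‖ ≤ r} = (fun ω => B t ω 0) ⁻¹' (Icc (z 0 - r) (z 0 + r)) ∩
      (fun ω => B t ω 1) ⁻¹' (Icc (z 1 - r) (z 1 + r)) := by
    ext ω
    simp only [mem_ofPred_eq, mem_inter_iff, mem_preimage, mem_Icc]
    rw [pi_norm_le_iff_of_nonneg hr, Fin.forall_fin_two]
    simp only [Pi.sub_apply, Real.norm_eq_abs, abs_le]
    constructor
    · rintro ⟨⟨h1, h2⟩, h3, h4⟩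
      exact ⟨⟨by linarith, by linarith⟩, by linarith, by linarith⟩
    · rintro ⟨⟨h1, h2⟩, h3, h4⟩
      exact ⟨⟨by linarith, by linarith⟩, by linarith, by linarith⟩
  rw [e, hi.measure_inter_preimage_eq_mul _ _ measurableSet_Icc measurableSet_Icc,
    ← Measure.map_apply (hm 0) measurableSet_Icc, ← Measure.map_apply (hm 1) measurableSet_Icc,
    law hB ht, law hB ht]

theorem up (hB : PB μ B) {t : ℝ} (ht : 0 < t) (z : Pl) {r : ℝ} (hr : 0 ≤ r) :
    μ.real {ω | ‖B t ω - z‖ ≤ r} ≤ 2 * r ^ 2 / (Real.pi * t) := by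
  have hv : t.toNNReal ≠ 0 := by simpa using ht
  have h1 : μ {ω | ‖B t ω - z‖ ≤ r} ≤ ENNReal.ofReal (2 * r ^ 2 / (Real.pi * t)) := by
    rw [prod hB ht z hr]
    refine (mul_le_mul' (g_up hv (z 0) r) (g_up hv (z 1) r)).trans (le_of_eq ?_)
    rw [← ENNReal.ofReal_mul (by positivity)]
    congr 1
    rw [div_mul_div_comm, Real.mul_self_sqrt (by positivity), Real.coe_toNNReal _ ht.le]
    have := Real.pi_pos
    field_simp
  exact ENNReal.toReal_le_of_le_ofReal (by positivity) h1

theorem low (hB : PB μ B) {t : ℝ} (ht : 0 < t) {r : ℝ} (hr : 0 ≤ r) (hrt : r ^ 2 ≤ t) :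
    2 * Real.exp (-1) * r ^ 2 / (Real.pi * t) ≤ μ.real {ω | ‖B t ω‖ ≤ r} := by
  have hp := hB.gp.isProbabilityMeasure
  have hv : t.toNNReal ≠ 0 := by simpa using ht
  have h0 : μ {ω | ‖B t ω‖ ≤ r} = μ {ω | ‖B t ω - 0‖ ≤ r} := by simp
  have h1 : ENNReal.ofReal (2 * Real.exp (-1) * r ^ 2 / (Real.pi * t)) ≤ μ {ω | ‖B t ω‖ ≤ r} := by
    rw [h0, prod hB ht 0 hr]
    have h2 := g_low hv r (by rw [Real.coe_toNNReal _ ht.le]; exact hrt)
    refine le_trans (le_of_eq ?_) (mul_le_mul' h2 h2)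
    rw [← ENNReal.ofReal_mul (by positivity)]
    congr 1
    have e1 : Real.exp (-1) = Real.exp (-(1 / 2)) * Real.exp (-(1 / 2)) := by
      rw [← Real.exp_add]; norm_num
    rw [e1, Real.coe_toNNReal _ ht.le]
    have e2 : 2 * r / √(2 * Real.pi * t) * Real.exp (-(1 / 2)) *
        (2 * r / √(2 * Real.pi * t) * Real.exp (-(1 / 2))) =
        (2 * r) * (2 * r) / (√(2 * Real.pi * t) * √(2 * Real.pi * t)) *
          (Real.exp (-(1 / 2)) * Real.exp (-(1 / 2))) := by
      ring
    rw [e2, Real.mul_self_sqrt (by positivity)]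
    have := Real.pi_pos
    field_simp
  have h3 := ENNReal.toReal_mono (measure_ne_top μ _) h1
  rwa [ENNReal.toReal_ofReal (by positivity)] at h3

end

/-- the first hitting decomposition -/
theorem hit {Ω : Type} [MeasurableSpace Ω] {μ : Measure Ω} [IsProbabilityMeasure μ]
    (Y : ℕ → Ω → Pl) (hY : ∀ k, Measurable (Y k)) (e : ℝ) (n : ℕ)
    (hi : ∀ k j : ℕ, IndepFun (fun ω (i : Fin (k + 1)) => Y i ω) (fun ω => Y (k + j) ω - Y k ω) μ)
    (p q : ℕ → ℝ) (hp : ∀ k j, j ∈ Finset.Icc 1 n → p j ≤ μ.real {ω | ‖Y (k + j) ω - Y k ω‖ ≤ e})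
    (hq : ∀ m, μ.real {ω | ‖Y m ω‖ ≤ 2 * e} ≤ q m) :
    μ.real {ω | ∃ k ≤ n, ‖Y k ω‖ ≤ e} * ∑ j ∈ Finset.Icc 1 n, p j ≤
      ∑ m ∈ Finset.Icc 1 (2 * n), q m := by
  let A : ℕ → Set Ω := fun k => {ω | (∀ j < k, e < ‖Y j ω‖) ∧ ‖Y k ω‖ ≤ e}
  have hnorm : ∀ k, Measurable (fun ω => ‖Y k ω‖) := fun k => (hY k).norm
  have hA : ∀ k, MeasurableSet (A k) := by
    intro k
    have : A k = (⋂ j ∈ Finset.range k, {ω | e < ‖Y j ω‖}) ∩ {ω | ‖Y k ω‖ ≤ e} := by
      ext ω
      simp [A]
    rw [this]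
    refine MeasurableSet.inter ?_ (measurableSet_le (hnorm k) measurable_const)
    exact Finset.measurableSet_biInter _ fun j _ => measurableSet_lt measurable_const (hnorm j)
  have hdis : ∀ k l, k < l → Disjoint (A k) (A l) := by
    intro k l hkl
    rw [Set.disjoint_left]
    rintro ω h1 h2
    exact absurd (h2.1 k hkl) (not_lt.2 h1.2)
  have hpair : Set.PairwiseDisjoint (↑(Finset.range (n + 1))) A := by
    intro k _ l _ hkl
    rcases lt_or_gt_of_ne hkl with h | h
    · exact hdis k l h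
    · exact (hdis l k h).symm
  have hE : {ω | ∃ k ≤ n, ‖Y k ω‖ ≤ e} = ⋃ k ∈ Finset.range (n + 1), A k := by
    ext ω
    simp only [mem_ofPred_eq, mem_iUnion, Finset.mem_range, exists_prop]
    constructor
    · intro h
      classical
      have h' : ∃ k, k ≤ n ∧ ‖Y k ω‖ ≤ e := h
      refine ⟨Nat.find h', Nat.lt_succ_of_le (Nat.find_spec h').1, ?_, (Nat.find_spec h').2⟩
      intro j hj
      by_contra hc
      exact Nat.find_min h' hj ⟨hj.le.trans (Nat.find_spec h').1, not_lt.1 hc⟩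
    · rintro ⟨k, hk, h⟩
      exact ⟨k, Nat.lt_succ_iff.1 hk, h.2⟩
  have hEm : μ.real {ω | ∃ k ≤ n, ‖Y k ω‖ ≤ e} = ∑ k ∈ Finset.range (n + 1), μ.real (A k) := by
    rw [hE, measureReal_biUnion_finset hpair fun k _ => hA k]
  have hind : ∀ k j, j ∈ Finset.Icc 1 n → μ.real (A k) * p j ≤
      μ.real (A k ∩ {ω | ‖Y (k + j) ω‖ ≤ 2 * e}) := by
    intro k j hj
    let S : Set (Fin (k + 1) → Pl) := {y | (∀ i : Fin (k + 1), (i : ℕ) < k → e < ‖y i‖) ∧
      ‖y (Fin.last k)‖ ≤ e}
    have hS : MeasurableSet S := by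
      have : S = (⋂ i : Fin (k + 1), {y : Fin (k + 1) → Pl | (i : ℕ) < k → e < ‖y i‖}) ∩
          {y | ‖y (Fin.last k)‖ ≤ e} := by
        ext y
        simp [S]
      rw [this]
      refine MeasurableSet.inter (MeasurableSet.iInter fun i => ?_)
        (measurableSet_le (measurable_pi_apply _).norm measurable_const)
      by_cases hik : (i : ℕ) < k
      · simp only [hik, true_imp_iff]
        exact measurableSet_lt measurable_const (measurable_pi_apply _).norm
      · simp only [hik, false_imp_iff, ofPred_true]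
        exact MeasurableSet.univ
    have hAS : A k = (fun ω (i : Fin (k + 1)) => Y i ω) ⁻¹' S := by
      ext ω
      simp only [A, S, mem_ofPred_eq, mem_preimage, Fin.val_last]
      constructor
      · rintro ⟨h1, h2⟩
        exact ⟨fun i hi => h1 i hi, h2⟩
      · rintro ⟨h1, h2⟩
        exact ⟨fun j hj => h1 ⟨j, by omega⟩ hj, h2⟩
    have hD : {ω | ‖Y (k + j) ω - Y k ω‖ ≤ e} =
        (fun ω => Y (k + j) ω - Y k ω) ⁻¹' {y : Pl | ‖y‖ ≤ e} := rfl
    have h1 : μ.real (A k ∩ {ω | ‖Y (k + j) ω - Y k ω‖ ≤ e}) =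
        μ.real (A k) * μ.real {ω | ‖Y (k + j) ω - Y k ω‖ ≤ e} := by
      rw [measureReal_def, measureReal_def, measureReal_def, ← ENNReal.toReal_mul, hD, hAS,
        (hi k j).measure_inter_preimage_eq_mul _ _ hS
          (measurableSet_le measurable_norm measurable_const)]
    calc μ.real (A k) * p j ≤ μ.real (A k) * μ.real {ω | ‖Y (k + j) ω - Y k ω‖ ≤ e} :=
          mul_le_mul_of_nonneg_left (hp k j hj) measureReal_nonneg
      _ = μ.real (A k ∩ {ω | ‖Y (k + j) ω - Y k ω‖ ≤ e}) := h1.symm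
      _ ≤ μ.real (A k ∩ {ω | ‖Y (k + j) ω‖ ≤ 2 * e}) := by
          refine measureReal_mono ?_
          rintro ω ⟨h2, h3⟩
          refine ⟨h2, ?_⟩
          have h4 := h2.2
          simp only [mem_ofPred_eq] at h3 ⊢
          calc ‖Y (k + j) ω‖ = ‖(Y (k + j) ω - Y k ω) + Y k ω‖ := by rw [sub_add_cancel]
            _ ≤ ‖Y (k + j) ω - Y k ω‖ + ‖Y k ω‖ := norm_add_le _ _
            _ ≤ 2 * e := by linarith
  have hG : ∀ m, MeasurableSet {ω | ‖Y m ω‖ ≤ 2 * e} := fun m =>
    measurableSet_le (hnorm m) measurable_const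
  rw [hEm, Finset.sum_mul]
  calc ∑ k ∈ Finset.range (n + 1), μ.real (A k) * ∑ j ∈ Finset.Icc 1 n, p j
      ≤ ∑ k ∈ Finset.range (n + 1), ∑ m ∈ Finset.Icc 1 (2 * n),
          μ.real (A k ∩ {ω | ‖Y m ω‖ ≤ 2 * e}) := by
        refine Finset.sum_le_sum fun k hk => ?_
        rw [Finset.mul_sum]
        have hk' : k ≤ n := Nat.lt_succ_iff.1 (Finset.mem_range.1 hk)
        calc ∑ j ∈ Finset.Icc 1 n, μ.real (A k) * p j
            ≤ ∑ j ∈ Finset.Icc 1 n, μ.real (A k ∩ {ω | ‖Y (k + j) ω‖ ≤ 2 * e}) :=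
              Finset.sum_le_sum fun j hj => hind k j hj
          _ = ∑ m ∈ (Finset.Icc 1 n).map (addLeftEmbedding k),
                μ.real (A k ∩ {ω | ‖Y m ω‖ ≤ 2 * e}) := by
              rw [Finset.sum_map]
              rfl
          _ ≤ ∑ m ∈ Finset.Icc 1 (2 * n), μ.real (A k ∩ {ω | ‖Y m ω‖ ≤ 2 * e}) := by
              refine Finset.sum_le_sum_of_subset_of_nonneg ?_ fun _ _ _ => measureReal_nonneg
              intro m hm
              simp only [Finset.mem_map, Finset.mem_Icc, addLeftEmbedding_apply] at hm ⊢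
              omega
    _ = ∑ m ∈ Finset.Icc 1 (2 * n), ∑ k ∈ Finset.range (n + 1),
          μ.real (A k ∩ {ω | ‖Y m ω‖ ≤ 2 * e}) := Finset.sum_comm
    _ ≤ ∑ m ∈ Finset.Icc 1 (2 * n), q m := by
        refine Finset.sum_le_sum fun m _ => le_trans ?_ (hq m)
        have hd : Set.PairwiseDisjoint (↑(Finset.range (n + 1)))
            (fun k => A k ∩ {ω | ‖Y m ω‖ ≤ 2 * e}) := by
          intro k hk l hl hkl
          exact (hpair hk hl hkl).mono inter_subset_left inter_subset_left
        rw [← measureReal_biUnion_finset hd fun k _ => (hA k).inter (hG m)]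
        refine measureReal_mono ?_
        intro ω hω
        simp only [mem_iUnion] at hω
        obtain ⟨k, _, h⟩ := hω
        exact h.2

theorem harm (J : ℕ) (hJ : 0 < J) (M : ℕ) :
    ∑ i ∈ Finset.range M, (1 : ℝ) / (i + 2) ≤ ∑ j ∈ Finset.Ico J (J * (M + 1)), (1 : ℝ) / j := by
  induction M with
  | zero => simp
  | succ M ih =>
    rw [Finset.sum_range_succ]
    have h1 : J ≤ J * (M + 1) := Nat.le_mul_of_pos_right _ (by omega)
    have h2 : J * (M + 1) ≤ J * (M + 1 + 1) := Nat.mul_le_mul_left _ (by omega)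
    rw [← Finset.sum_Ico_consecutive _ h1 h2]
    refine add_le_add ih ?_
    have h3 := Finset.card_nsmul_le_sum (Finset.Ico (J * (M + 1)) (J * (M + 1 + 1)))
      (fun j : ℕ => (1 : ℝ) / j) (1 / ((J : ℝ) * (M + 2))) ?_
    · refine le_trans (le_of_eq ?_) h3
      rw [Nat.card_Ico]
      have : J * (M + 1 + 1) - J * (M + 1) = J := by
        rw [Nat.mul_succ J (M + 1)]; omega
      rw [this, nsmul_eq_mul]
      have hJ' : (J : ℝ) ≠ 0 := by exact_mod_cast hJ.ne'
      field_simp
    · intro j hj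
      rw [Finset.mem_Ico] at hj
      have hj0 : (0 : ℝ) < j := by
        have : 0 < j := lt_of_lt_of_le (Nat.mul_pos hJ (by omega)) hj.1
        exact_mod_cast this
      refine one_div_le_one_div_of_le hj0 ?_
      have : (j : ℝ) ≤ ((J * (M + 1 + 1) : ℕ) : ℝ) := by exact_mod_cast hj.2.le
      refine this.trans (le_of_eq ?_)
      push_cast
      ring

theorem tendsto_harm : Tendsto (fun M : ℕ => ∑ i ∈ Finset.range M, (1 : ℝ) / (i + 2)) atTop
    atTop := by
  have h1 := Real.tendsto_sum_range_one_div_nat_succ_atTop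
  have h2 := (tendsto_add_atTop_iff_nat 1).2 h1
  have h3 : (fun M : ℕ => ∑ i ∈ Finset.range (M + 1), (1 : ℝ) / (i + 1)) =
      fun M : ℕ => (∑ i ∈ Finset.range M, (1 : ℝ) / (i + 2)) + 1 := by
    funext M
    rw [Finset.sum_range_succ']
    congr 1
    · refine Finset.sum_congr rfl fun i _ => ?_
      push_cast
      ring
    · simp
  rw [h3] at h2
  have h4 := tendsto_atTop_add_const_right atTop (-1 : ℝ) h2
  refine h4.congr fun M => ?_
  ring

end POL

open POL in
theorem pol_thm (h_AFF : S_AFF) (h_IND : S_IND) : S_POL := by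
  intro Ω _ μ B hB a b ha hab z
  have hpm := hB.gp.isProbabilityMeasure
  have hπ := Real.pi_pos
  -- the bound for one grid
  have key : ∀ M J : ℕ, 0 < J → ∀ e : ℝ, 0 < e → e ^ 2 = (b - a) / ((M : ℝ) + 1) →
      μ.real {ω | ∃ k ≤ J * (M + 1),
        ‖B (a + k * ((b - a) / (J * (M + 1)))) ω - z‖ ≤ e} *
        (Real.exp (-1) * ∑ i ∈ Finset.range M, (1 : ℝ) / (i + 2)) ≤ 8 * (b - a) / a := by
    intro M J hJ e he hee
    set n := J * (M + 1) with hn
    set d := (b - a) / (J * (M + 1)) with hd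
    have hJ' : (0 : ℝ) < J := by exact_mod_cast hJ
    have hM' : (0 : ℝ) < (M : ℝ) + 1 := by positivity
    have hd0 : 0 < d := div_pos (by linarith) (by positivity)
    have hJd : (J : ℝ) * d = e ^ 2 := by
      rw [hee, hd]
      field_simp
    have ht : ∀ k : ℕ, 0 ≤ a + k * d := fun k => by positivity
    have ht' : ∀ k : ℕ, 0 < a + k * d := fun k => by positivity
    have hY : ∀ k : ℕ, Measurable (fun ω => B (a + k * d) ω - z) := fun k =>
      (hB.meas _ (ht k)).sub_const z
    have hshift : ∀ k j : ℕ, 1 ≤ j → ∀ ω, (√(1 : ℝ))⁻¹ • (B ((a + k * d) + 1 * (j * d)) ω -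
        B (a + k * d) ω) = (B (a + ((k + j : ℕ) : ℝ) * d) ω - z) - (B (a + k * d) ω - z) := by
      intro k j _ ω
      rw [Real.sqrt_one, inv_one, one_smul, sub_sub_sub_cancel_right]
      congr 2
      push_cast
      ring
    let p : ℕ → ℝ := fun j => if J ≤ j then 2 * Real.exp (-1) * e ^ 2 / (Real.pi * (j * d)) else 0
    have h1 := hit (μ := μ) (fun k ω => B (a + k * d) ω - z) hY e n ?_ p
      (fun _ => 2 * (2 * e) ^ 2 / (Real.pi * a)) ?_ ?_
    · have hs1 : ∑ j ∈ Finset.Ico J (J * (M + 1)), (2 * Real.exp (-1) * e ^ 2 /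
          (Real.pi * (j * d))) ≤ ∑ j ∈ Finset.Icc 1 n, p j := by
        have hsub : Finset.Ico J (J * (M + 1)) ⊆ Finset.Icc 1 n := by
          intro j hj
          rw [Finset.mem_Ico] at hj
          rw [Finset.mem_Icc]
          omega
        refine le_trans ?_ (Finset.sum_le_sum_of_subset_of_nonneg hsub ?_)
        · refine Finset.sum_le_sum fun j hj => ?_
          rw [Finset.mem_Ico] at hj
          simp only [p, if_pos hj.1]
          exact le_rfl
        · intro j _ _
          simp only [p]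
          split_ifs
          · positivity
          · exact le_rfl
      have hs2 : ∑ j ∈ Finset.Ico J (J * (M + 1)), (2 * Real.exp (-1) * e ^ 2 /
          (Real.pi * (j * d))) = 2 * Real.exp (-1) * J / Real.pi *
            ∑ j ∈ Finset.Ico J (J * (M + 1)), (1 : ℝ) / j := by
        rw [Finset.mul_sum]
        refine Finset.sum_congr rfl fun j hj => ?_
        rw [Finset.mem_Ico] at hj
        have hj0 : (0 : ℝ) < j := by
          have : 0 < j := lt_of_lt_of_le hJ hj.1
          exact_mod_cast this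
        rw [← hJd]
        field_simp
      rw [Finset.sum_const, Nat.card_Icc, nsmul_eq_mul] at h1
      have hs3 := harm J hJ M
      have hP := measureReal_nonneg (μ := μ)
        (s := {ω | ∃ k ≤ n, ‖B (a + k * d) ω - z‖ ≤ e})
      have hs4 : μ.real {ω | ∃ k ≤ n, ‖B (a + k * d) ω - z‖ ≤ e} *
          (2 * Real.exp (-1) * J / Real.pi * ∑ i ∈ Finset.range M, (1 : ℝ) / (i + 2)) ≤
          ((2 * n + 1 - 1 : ℕ) : ℝ) * (2 * (2 * e) ^ 2 / (Real.pi * a)) := by
        refine le_trans ?_ h1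
        refine mul_le_mul_of_nonneg_left ?_ hP
        refine le_trans ?_ hs1
        rw [hs2]
        exact mul_le_mul_of_nonneg_left hs3 (by positivity)
      have hs5 : ((2 * n + 1 - 1 : ℕ) : ℝ) * (2 * (2 * e) ^ 2 / (Real.pi * a)) =
          2 * J / Real.pi * (8 * (b - a) / a) := by
        rw [Nat.add_sub_cancel, hn]
        push_cast
        rw [mul_pow, hee]
        field_simp
        ring
      rw [hs5] at hs4
      have hc : 0 < 2 * (J : ℝ) / Real.pi := by positivity
      refine le_of_mul_le_mul_left ?_ hc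
      refine le_trans (le_of_eq ?_) hs4
      ring
    · intro k j
      have h2 := h_IND Ω μ B hB (Fin (k + 1)) Unit (fun i => a + ((i : ℕ) : ℝ) * d)
        (fun _ => (j : ℝ) * d) (a + k * d) (ht k) ?_ ?_
      · have hψ : Measurable (fun y : Unit → Pl => y ()) := measurable_pi_apply (X := fun _ => Pl) ()
        have hφ : Measurable (fun (y : Fin (k + 1) → Pl) (i : Fin (k + 1)) => y i - z) :=
          measurable_pi_lambda _ fun i =>
            (measurable_pi_apply (X := fun _ : Fin (k + 1) => Pl) i).sub_const z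
        have h3 := h2.comp hφ hψ
        have e1 : (fun ω => (B (a + ((k + j : ℕ) : ℝ) * d) ω - z) - (B (a + k * d) ω - z)) =
            (fun y : Unit → Pl => y ()) ∘
              fun ω (_ : Unit) => B (a + k * d + j * d) ω - B (a + k * d) ω := by
          funext ω
          simp only [Function.comp_apply, sub_sub_sub_cancel_right]
          rw [show a + ((k + j : ℕ) : ℝ) * d = a + k * d + j * d by push_cast; ring]
        rw [e1]
        exact h3
      · intro i
        refine ⟨ht i, ?_⟩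
        have : ((i : ℕ) : ℝ) ≤ k := by exact_mod_cast Nat.lt_succ_iff.1 i.2
        nlinarith
      · intro _
        positivity
    · intro k j hj
      rw [Finset.mem_Icc] at hj
      simp only [p]
      split_ifs with hJj
      · have h2 := h_AFF Ω μ B hB (a + k * d) 1 (ht k) one_pos
        have hj0 : (0 : ℝ) < j := by exact_mod_cast hj.1
        have hJj' : (J : ℝ) ≤ j := by exact_mod_cast hJj
        have h3 := low h2 (t := j * d) (by positivity) (r := e) he.le (by
          rw [← hJd]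
          exact mul_le_mul_of_nonneg_right hJj' hd0.le)
        refine h3.trans (le_of_eq ?_)
        congr 1
        ext ω
        simp only [mem_ofPred_eq]
        rw [hshift k j hj.1 ω]
      · exact measureReal_nonneg
    · intro m
      refine (up hB (ht' m) z (r := 2 * e) (by positivity)).trans ?_
      refine div_le_div_of_nonneg_left (by positivity) (by positivity) ?_
      refine mul_le_mul_of_nonneg_left ?_ hπ.le
      have : 0 ≤ (m : ℝ) * d := by positivity
      linarith
  -- the limit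
  refine le_antisymm (ENNReal.le_of_forall_pos_le_add ?_) zero_le
  intro ε hε _
  have hε' : (0 : ℝ) < ε := hε
  obtain ⟨M, hM⟩ := (tendsto_harm.eventually_ge_atTop
    ((8 * (b - a) / a) / (Real.exp (-1) * ε) + 1)).exists
  set H := ∑ i ∈ Finset.range M, (1 : ℝ) / (i + 2) with hH
  set e := √((b - a) / ((M : ℝ) + 1)) with he
  have hq : 0 < (b - a) / ((M : ℝ) + 1) := div_pos (by linarith) (by positivity)
  have he0 : 0 < e := Real.sqrt_pos.2 hq
  have hee : e ^ 2 = (b - a) / ((M : ℝ) + 1) := Real.sq_sqrt hq.le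
  let E : ℕ → Set Ω := fun J => {ω | ∃ k ≤ (J + 1) * (M + 1),
    ‖B (a + k * ((b - a) / (((J + 1 : ℕ) : ℝ) * (M + 1)))) ω - z‖ ≤ e}
  have hE : ∀ J, μ (E J) ≤ ε := by
    intro J
    have h1 := key M (J + 1) (Nat.succ_pos J) e he0 hee
    have h2 : μ.real (E J) ≤ ε := by
      have hc : 0 ≤ 8 * (b - a) / a := div_nonneg (by linarith) ha.le
      have hex := Real.exp_pos (-1)
      by_contra hcon
      rw [not_le] at hcon
      have h3 : (ε : ℝ) * (Real.exp (-1) * H) ≤ μ.real (E J) * (Real.exp (-1) * H) := by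
        refine mul_le_mul_of_nonneg_right hcon.le ?_
        refine mul_nonneg hex.le (le_trans ?_ hM)
        positivity
      have h4 : (ε : ℝ) * (Real.exp (-1) * ((8 * (b - a) / a) / (Real.exp (-1) * ε) + 1)) ≤
          (ε : ℝ) * (Real.exp (-1) * H) := by
        gcongr
      have h5 : (ε : ℝ) * (Real.exp (-1) * ((8 * (b - a) / a) / (Real.exp (-1) * ε) + 1)) =
          8 * (b - a) / a + ε * Real.exp (-1) := by
        field_simp
      have h6 : 0 < (ε : ℝ) * Real.exp (-1) := by positivity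
      have h7 := h3.trans h1
      linarith
    rw [measureReal_def] at h2
    rw [← ENNReal.ofReal_toReal (measure_ne_top μ (E J))]
    refine (ENNReal.ofReal_le_ofReal h2).trans (le_of_eq ?_)
    exact ENNReal.ofReal_coe_nnreal
  have hsub : {ω | z ∈ tr B ω a b} ⊆ ⋃ N : ℕ, ⋂ J ∈ Ici N, E J := by
    rintro ω ⟨v, hv, hvz⟩
    have hcont := Metric.continuous_iff.1 (hB.cont ω) v e he0
    obtain ⟨η, hη, hcont⟩ := hcont
    obtain ⟨N, hN⟩ := exists_nat_gt ((b - a) / η)
    simp only [mem_iUnion, mem_iInter, mem_Ici]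
    refine ⟨N, fun J hJ => ?_⟩
    set d := (b - a) / (((J + 1 : ℕ) : ℝ) * (M + 1)) with hd
    have hJ1 : (0 : ℝ) < ((J + 1 : ℕ) : ℝ) := by positivity
    have hd0 : 0 < d := div_pos (by linarith) (by positivity)
    have hdη : d < η := by
      rw [hd, div_lt_iff₀ (by positivity)]
      rw [div_lt_iff₀ hη] at hN
      have h1 : (N : ℝ) ≤ ((J + 1 : ℕ) : ℝ) := by
        have : N ≤ J + 1 := by omega
        exact_mod_cast this
      have h2 : ((J + 1 : ℕ) : ℝ) ≤ ((J + 1 : ℕ) : ℝ) * (M + 1) := by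
        have : (1 : ℝ) ≤ (M : ℝ) + 1 := by
          have : (0 : ℝ) ≤ M := by positivity
          linarith
        nlinarith
      nlinarith
    have hn : ((J + 1 : ℕ) : ℝ) * (M + 1) * d = b - a := by
      rw [hd]
      field_simp
    refine ⟨⌊(v - a) / d⌋₊, ?_, ?_⟩
    · have h1 : (v - a) / d ≤ (((J + 1) * (M + 1) : ℕ) : ℝ) := by
        rw [div_le_iff₀ hd0]
        push_cast at hn ⊢
        rw [hn]
        linarith [hv.2]
      exact Nat.floor_le_of_le h1
    · have h0 : 0 ≤ (v - a) / d := div_nonneg (by linarith [hv.1]) hd0.le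
      have h1 := Nat.floor_le h0
      have h2 := Nat.lt_floor_add_one ((v - a) / d)
      rw [le_div_iff₀ hd0] at h1
      rw [div_lt_iff₀ hd0] at h2
      have h3 := hcont (a + (⌊(v - a) / d⌋₊ : ℝ) * d) (by
        rw [Real.dist_eq, abs_lt]
        constructor
        · nlinarith
        · nlinarith)
      rw [dist_eq_norm] at h3
      have h4 : B v ω = z := hvz
      rw [h4] at h3
      exact h3.le
  have hmono : Monotone fun N : ℕ => ⋂ J ∈ Ici N, E J := by
    intro N N' hNN'
    exact biInter_mono (fun J hJ => le_trans hNN' hJ) fun _ _ => le_rfl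
  rw [zero_add]
  refine (measure_mono hsub).trans ?_
  rw [hmono.measure_iUnion]
  refine iSup_le fun N => ?_
  exact (measure_mono (biInter_subset_of_mem (self_mem_Ici))).trans (hE N)

end Pool.ADJ
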